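import Pool.Agent.Helper69.BQ.Defs

/-!
# Project BQ, piece A2: the quadratic character of the unit part of a rational number
-/

namespace Pool.Agent.Helper51.BQ

open Pool.Agent.Helper69.BQ

variable {p : ℕ}

/-- The character at an integer prime to `p`. -/
def leg (p : ℕ) (u : ℤ) : ZMod 2 := if jacobiSym u p = -1 then 1 else 0

lemma xi_eq (hp : p.Prime) {n u : ℤ} {k : ℕ} (h : n = (p : ℤ) ^ k * u) (hu : ¬ (p : ℤ) ∣ u) :
    xi p n = leg p u := by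
  haveI : Fact p.Prime := ⟨hp⟩
  have hu0 : u ≠ 0 := by
    rintro rfl
    exact hu (dvd_zero _)
  have hp0 : (p : ℤ) ≠ 0 := by exact_mod_cast hp.ne_zero
  have hv : padicValInt p n = k := by
    rw [h, padicValInt.mul (pow_ne_zero _ hp0) hu0]
    have h1 : padicValInt p u = 0 := padicValInt.eq_zero_of_not_dvd hu
    have h2 : padicValInt p ((p : ℤ) ^ k) = k := by
      have : ((p : ℤ) ^ k) = ((p ^ k : ℕ) : ℤ) := by push_cast; rfl
      rw [this, padicValInt.of_nat, padicValNat.prime_pow]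
    rw [h1, h2, add_zero]
  unfold xi leg
  rw [hv, h, Int.mul_ediv_cancel_left _ (pow_ne_zero _ hp0)]

lemma exists_unit (hp : p.Prime) {n : ℤ} (hn : n ≠ 0) :
    ∃ (k : ℕ) (u : ℤ), n = (p : ℤ) ^ k * u ∧ ¬ (p : ℤ) ∣ u := by
  have hpi : Prime (p : ℤ) := Nat.prime_iff_prime_int.mp hp
  have hf : FiniteMultiplicity (p : ℤ) n :=
    Int.finiteMultiplicity_iff.mpr ⟨by simpa using hp.ne_one, hn⟩
  obtain ⟨u, h1, h2⟩ := hf.exists_eq_pow_mul_and_not_dvd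
  exact ⟨_, u, h1, h2⟩

lemma leg_mul (hp : p.Prime) {u v : ℤ} (hu : ¬ (p : ℤ) ∣ u) (hv : ¬ (p : ℤ) ∣ v) :
    leg p (u * v) = leg p u + leg p v := by
  haveI : Fact p.Prime := ⟨hp⟩
  have key : ∀ w : ℤ, ¬ (p : ℤ) ∣ w → jacobiSym w p = 1 ∨ jacobiSym w p = -1 := by
    intro w hw
    apply jacobiSym.eq_one_or_neg_one
    have h1 : IsCoprime (p : ℤ) w :=
      (Nat.prime_iff_prime_int.mp hp).coprime_iff_not_dvd.mpr hw
    exact Int.isCoprime_iff_gcd_eq_one.mp h1.symm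
  unfold leg
  rw [jacobiSym.mul_left]
  rcases key u hu with h1 | h1 <;> rcases key v hv with h2 | h2 <;> rw [h1, h2] <;> decide

lemma xi_mul (hp : p.Prime) {n m : ℤ} (hn : n ≠ 0) (hm : m ≠ 0) :
    xi p (n * m) = xi p n + xi p m := by
  obtain ⟨k, u, h1, h2⟩ := exists_unit hp hn
  obtain ⟨l, v, h3, h4⟩ := exists_unit hp hm
  have h5 : n * m = (p : ℤ) ^ (k + l) * (u * v) := by
    rw [h1, h3, pow_add]; ring
  have h6 : ¬ (p : ℤ) ∣ u * v := by
    intro h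
    rcases (Nat.prime_iff_prime_int.mp hp).dvd_or_dvd h with h | h
    · exact h2 h
    · exact h4 h
  rw [xi_eq hp h5 h6, xi_eq hp h1 h2, xi_eq hp h3 h4, leg_mul hp h2 h4]

lemma xi_sq (hp : p.Prime) {n : ℤ} (hn : n ≠ 0) : xi p (n ^ 2) = 0 := by
  rw [pow_two, xi_mul hp hn hn, CharTwo.add_self_eq_zero]

lemma num_mul_den (a : ℚ) : ((a.num * a.den : ℤ) : ℚ) = a * (a.den : ℚ) ^ 2 := by
  have h0 : (a.den : ℚ) ≠ 0 := by exact_mod_cast a.den_ne_zero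
  have h := Rat.mul_den_eq_num a
  push_cast
  rw [← h]
  ring

lemma xx_eq (hp : p.Prime) {a : ℚ} (ha : a ≠ 0) {n k : ℤ} (hk : k ≠ 0)
    (h : (n : ℚ) = a * (k : ℚ) ^ 2) : xx p a = xi p n := by
  have hk' : (k : ℚ) ≠ 0 := by exact_mod_cast hk
  have hn : n ≠ 0 := by
    rintro rfl
    have : a * (k : ℚ) ^ 2 ≠ 0 := mul_ne_zero ha (pow_ne_zero _ hk')
    exact this (by rw [← h]; simp)
  have hd : (a.den : ℤ) ≠ 0 := by exact_mod_cast a.den_ne_zero
  have hnum : a.num ≠ 0 := Rat.num_ne_zero.mpr ha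
  have e : (a.num * a.den) * k ^ 2 = n * (a.den : ℤ) ^ 2 := by
    have h1 : (((a.num * a.den) * k ^ 2 : ℤ) : ℚ) = ((n * (a.den : ℤ) ^ 2 : ℤ) : ℚ) := by
      have h2 := num_mul_den a
      push_cast at h2 ⊢
      rw [h2, h]
      ring
    exact_mod_cast h1
  have e1 : xi p ((a.num * a.den) * k ^ 2) = xi p (a.num * a.den) := by
    rw [xi_mul hp (mul_ne_zero hnum hd) (pow_ne_zero _ hk), xi_sq hp hk, add_zero]
  have e2 : xi p (n * (a.den : ℤ) ^ 2) = xi p n := by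
    rw [xi_mul hp hn (pow_ne_zero _ hd), xi_sq hp hd, add_zero]
  unfold xx
  rw [← e1, e, e2]

lemma xx_mul (hp : p.Prime) (hp2 : p ≠ 2) {a b : ℚ} (ha : a ≠ 0) (hb : b ≠ 0) :
    xx p (a * b) = xx p a + xx p b := by
  have hda : (a.den : ℤ) ≠ 0 := by exact_mod_cast a.den_ne_zero
  have hdb : (b.den : ℤ) ≠ 0 := by exact_mod_cast b.den_ne_zero
  have hna : a.num ≠ 0 := Rat.num_ne_zero.mpr ha
  have hnb : b.num ≠ 0 := Rat.num_ne_zero.mpr hb
  have h : (((a.num * a.den) * (b.num * b.den) : ℤ) : ℚ)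
      = (a * b) * (((a.den : ℤ) * (b.den : ℤ) : ℤ) : ℚ) ^ 2 := by
    have h1 := num_mul_den a
    have h2 := num_mul_den b
    push_cast at h1 h2 ⊢
    rw [h1, h2]
    ring
  rw [xx_eq hp (mul_ne_zero ha hb) (mul_ne_zero hda hdb) h,
    xi_mul hp (mul_ne_zero hna hda) (mul_ne_zero hnb hdb)]
  rfl

lemma xx_sq (hp : p.Prime) (hp2 : p ≠ 2) {a : ℚ} (ha : a ≠ 0) : xx p (a ^ 2) = 0 := by
  rw [pow_two, xx_mul hp hp2 ha ha, CharTwo.add_self_eq_zero]

lemma xx_self (hp : p.Prime) (hp2 : p ≠ 2) : xx p (p : ℚ) = 0 := by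
  have hp0 : (p : ℚ) ≠ 0 := by exact_mod_cast hp.ne_zero
  rw [xx_eq hp hp0 (n := (p : ℤ)) (k := 1) one_ne_zero (by push_cast; ring)]
  have h1 : ¬ (p : ℤ) ∣ 1 := by
    intro h
    exact (Nat.prime_iff_prime_int.mp hp).not_unit (isUnit_of_dvd_one h)
  rw [xi_eq hp (k := 1) (u := 1) (by ring) h1]
  unfold leg
  rw [jacobiSym.one_left]
  decide

lemma leg_eq_zero_iff (hp : p.Prime) {n : ℤ} (h : ¬ (p : ℤ) ∣ n) :
    leg p n = 0 ↔ IsSquare ((n : ℤ) : ZMod p) := by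
  haveI : Fact p.Prime := ⟨hp⟩
  unfold leg
  rw [← jacobiSym.legendreSym.to_jacobiSym p n]
  by_cases hs : IsSquare ((n : ℤ) : ZMod p)
  · have h1 : ¬ legendreSym p n = -1 := by
      rw [legendreSym.eq_neg_one_iff]
      exact not_not.mpr hs
    rw [if_neg h1]
    exact ⟨fun _ => hs, fun _ => rfl⟩
  · have h1 : legendreSym p n = -1 := (legendreSym.eq_neg_one_iff p).mpr hs
    rw [if_pos h1]
    exact ⟨fun h2 => absurd h2 (by decide), fun h2 => absurd h2 hs⟩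

/-- The value at an integer prime to `p`. -/
lemma xx_int (hp : p.Prime) (hp2 : p ≠ 2) {n : ℤ} (h : ¬ (p : ℤ) ∣ n) :
    xx p (n : ℚ) = 0 ↔ IsSquare ((n : ℤ) : ZMod p) := by
  have hn : (n : ℚ) ≠ 0 := by
    intro h0
    have : n = 0 := by exact_mod_cast h0
    exact h (this ▸ dvd_zero _)
  rw [xx_eq hp hn (n := n) (k := 1) one_ne_zero (by push_cast; ring),
    xi_eq hp (k := 0) (u := n) (by ring) h]
  exact leg_eq_zero_iff hp h

lemma xx_neg_one (hp : p.Prime) (hp4 : p % 4 = 3) : xx p (-1) = 1 := by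
  haveI : Fact p.Prime := ⟨hp⟩
  have hp2 : p ≠ 2 := by
    rintro rfl
    omega
  have h1 : ¬ (p : ℤ) ∣ (-1) := by
    intro h
    exact (Nat.prime_iff_prime_int.mp hp).not_unit (isUnit_of_dvd_one ((dvd_neg).mp h))
  have h2 := xx_int hp hp2 h1
  push_cast at h2
  have h3 : ¬ IsSquare (-1 : ZMod p) := by
    rw [ZMod.exists_sq_eq_neg_one_iff]
    simpa using hp4
  have h4 : xx p (-1) ≠ 0 := fun h => h3 (h2.mp h)
  have h5 : ∀ z : ZMod 2, z ≠ 0 → z = 1 := by decide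
  exact h5 _ h4

end Pool.Agent.Helper51.BQ
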